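import Pool.Agent.Run7.h316.PN.Dom
import Pool.Agent.N763.SC.Cls

/-!
# Schneider's conjecture in families of elliptic curves with prime parameters, at all primes up to a function tending to
# infinity

A `Family d r` (see `Pool.Agent.Y732.Defs3`) is a Weierstrass equation over `ℤ[t₁, …, t_d]` with `r` sections, all
homogeneous for some weights of the parameters, and `F.K` is the height pairing of the sections over the function
field; it is assumed to be nondegenerate. `F.Marked v`: the member at `v ∈ ℤ^d` is an elliptic curve and the `r` points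
are in lowest terms and nonsingular modulo all primes. `F.NonDeg v p`: the `p`-adic regulator of the `r` points does not
vanish, and Schneider's conjecture at `p` holds if the rank is `r`; `Large F p T v`: these regulators have norm greater
than `1 / T`.

Let `x w`, `w ∈ Ω`, be a family of vectors of parameters and `S N ⊂ Ω` finite sets.

`AlmostAll F M`: there is a function `P(N)` which tends to infinity such that for all but at most the proportion
`1 / (P(N) + 1)` of the `w ∈ S N`: if the member at `x w` is marked, then `F.NonDeg (x w) p` for ALL primes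
`5 ≤ p ≤ P(N)` not dividing `M` at which this member is ordinary.

`FewSmall F p C`: for all `k` and `δ > 0` and all large `N`, the member at `x w` is marked, ordinary at `p` and violates
`NonDeg` or has a regulator of norm at most `p ^ (-k)` for at most the proportion
`C (2^d r |det K| p⁴) / p^(k/r) + δ` of the `w ∈ S N`.

**Theorem.** Let `F` be a family, `0 < r`, `det K ≠ 0`.

(1) PRIME PARAMETERS: the vectors `x = (u_i q_i + t_i)_i`, where the `q_i` are prime numbers `≤ N`, have the property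
`AlmostAll F 1`, for all integers `t_i` and `u_i ≠ 0`.

(2) The vectors of prime numbers `≤ N` have the property `FewSmall F p (40 ^ d)` for all primes `p ≥ 5`.

(3) All families of vectors of parameters which are dominated at all primes `p ≥ 5` not dividing `M` (`DominatedAt`: for
some `C = C(p)` the proportion of the vectors in any class modulo `p ^ k` is at most `C p ^ (- k d) + o(1)`, for all `k`)
have the property `AlmostAll F M`: so all subfamilies of positive lower density of equidistributed families, along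
arbitrary sets, of vectors of primes, and so on. If the family is dominated at `p` by `C ≥ 0`, it has the property
`FewSmall F p C`.

The starting files treat boxes (`RegulatorsInFamilies`, `SmallRegulators`), random orbits and metric sequences
(`ResidueClassesAndOrbits`), for each `p`. Vectors of primes are not uniformly distributed modulo `p`: they are vectors of
units.

Proof. The exceptional parameters are contained in few classes modulo `p ^ k` (`Pool.Agent.N763.SC.Cls`, helper763, on the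
basis of the libraries `Y732` and `R89.SR`). At most the proportion `20 / φ(p ^ k)` of the primes is in a class modulo
`p ^ k` (prime number theorem for arithmetic progressions, helper923), and `φ(p ^ k) ≥ p ^ k / 2`. A diagonal argument
gives `P(N)`.
-/

set_option autoImplicit false

namespace Pool.Agent.Results.MP_3550b5_nt.PrimeParameters

open Filter Topology
open Pool.Agent.Y732 Pool.Agent.R89.SR Pool.Agent.N763.SC
open Pool.Agent.Run7.h316.EQ (Rare primeBox)
open Pool.Agent.Run7.h316.PN (DominatedAt DominatedBy)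

variable {d r : ℕ}

/-- the marked members which violate `NonDeg` at some prime `5 ≤ p ≤ P` not dividing `M` at which they are ordinary -/
def Bad (F : Family d r) (M P : ℕ) : Set (Fin d → ℤ) :=
  {v | F.Marked v ∧ ∃ (p : ℕ) (_ : Fact p.Prime), 5 ≤ p ∧ p ≤ P ∧ ¬ p ∣ M ∧
    IsOrdinaryW p (F.curve v) ∧ ¬ F.NonDeg v p}

/-- There is a function `P N` tending to infinity such that at most the proportion `1 / (P N + 1)` of the `w` in `S N` is
marked and violates `NonDeg` at some prime `5 ≤ p ≤ P N` of ordinary reduction not dividing `M`. -/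
def AlmostAll (F : Family d r) (M : ℕ) {Ω : Type} (S : ℕ → Finset Ω) (x : Ω → Fin d → ℤ) : Prop :=
  ∃ P : ℕ → ℕ, Tendsto P atTop atTop ∧
    ∀ N : ℕ, (P N + 1) * {w : Ω | w ∈ S N ∧ x w ∈ Bad F M (P N)}.ncard ≤ (S N).card

/-- Small `p`-adic regulators are rare. -/
def FewSmall (F : Family d r) (p : ℕ) [Fact p.Prime] (C : ℝ) {Ω : Type} (S : ℕ → Finset Ω)
    (x : Ω → Fin d → ℤ) : Prop :=
  ∀ k : ℕ, ∀ δ : ℝ, 0 < δ → ∃ N₀ : ℕ, ∀ N : ℕ, N₀ ≤ N →
    (({w : Ω | w ∈ S N ∧ F.Marked (x w) ∧ IsOrdinaryW p (F.curve (x w)) ∧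
      (¬ F.NonDeg (x w) p ∨ ¬ Large F p (p ^ k) (x w))}.ncard : ℕ) : ℝ) ≤
      (C * (2 ^ d * r * |(F.K.det : ℝ)| * (p : ℝ) ^ 4) / ((p : ℝ) ^ k) ^ ((1 : ℝ) / r) + δ) *
        (S N).card

theorem pnull (F : Family d r) (hr : 0 < r) (hK : F.K.det ≠ 0) {p : ℕ} [hp : Fact p.Prime]
    (hp5 : 5 ≤ p) : ∀ ε : ℝ, 0 < ε → ∃ k : ℕ,
      ((((fun (v : Fin d → ℤ) (i : Fin d) => ((v i : ℤ) : ZMod (p ^ k))) ''
        {v | F.Marked v ∧ IsOrdinaryW p (F.curve v) ∧ ¬ F.NonDeg v p}).ncard : ℕ) : ℝ) ≤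
        ε * ((p ^ k : ℕ) : ℝ) ^ Fintype.card (Fin d) := by
  intro ε hε
  rw [Fintype.card_fin]
  have hlim : Tendsto (fun k : ℕ => cst F p / ((p : ℝ) ^ k) ^ ((1 : ℝ) / r)) atTop (𝓝 0) := by
    refine tendsto_const_nhds.div_atTop ?_
    refine (tendsto_rpow_atTop (by positivity)).comp ?_
    exact tendsto_pow_atTop_atTop_of_one_lt (by exact_mod_cast hp.out.one_lt)
  obtain ⟨k, hk⟩ := ((tendsto_order.1 hlim).2 ε hε).exists
  have hpk : NeZero (p ^ k) := ⟨pow_ne_zero k hp.out.ne_zero⟩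
  refine ⟨k, ?_⟩
  have h1 : (((fun (v : Fin d → ℤ) (i : Fin d) => ((v i : ℤ) : ZMod (p ^ k))) ''
      {v | F.Marked v ∧ IsOrdinaryW p (F.curve v) ∧ ¬ F.NonDeg v p}).ncard) ≤
        (SmlCls F p k).ncard := by
    refine Set.ncard_le_ncard ?_ (Set.toFinite _)
    rintro _ ⟨v, ⟨h1, h2, h3⟩, rfl⟩
    exact ⟨v, sml_of_not_nonDeg hr h1 h2 h3 _, rfl⟩
  have h2 : ((((fun (v : Fin d → ℤ) (i : Fin d) => ((v i : ℤ) : ZMod (p ^ k))) ''
      {v | F.Marked v ∧ IsOrdinaryW p (F.curve v) ∧ ¬ F.NonDeg v p}).ncard : ℕ) : ℝ) ≤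
        ((SmlCls F p k).ncard : ℝ) := by exact_mod_cast h1
  refine h2.trans ((cls_real F hr hK hp5 k).trans ?_)
  rw [← div_eq_mul_inv]
  exact mul_le_mul_of_nonneg_right hk.le (by positivity)

theorem almostAll (F : Family d r) (hr : 0 < r) (hK : F.K.det ≠ 0) (M : ℕ) {Ω : Type}
    (S : ℕ → Finset Ω) (x : Ω → Fin d → ℤ)
    (h : ∀ p : ℕ, p.Prime → 5 ≤ p → ¬ p ∣ M → DominatedAt p S x) :
    AlmostAll F M S x := by
  classical
  refine Pool.Agent.Run7.h316.PN.diagonal (fun j => Bad F M j) ?_ fun j => ?_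
  · ext y
    simp only [Bad, Set.mem_ofPred_eq, Set.mem_empty_iff_false, iff_false]
    rintro ⟨-, p, hp, hp5, hp0, -⟩
    omega
  · refine Pool.Agent.Run7.h316.EQ.Rare.mono ?_
      (Pool.Agent.Run7.h316.PN.rare_biUnion' (S := S) (c := x)
        ((Finset.range (j + 1)).filter fun p => p.Prime ∧ 5 ≤ p ∧ ¬ p ∣ M)
        (B := fun p => {y | ∃ _ : Fact p.Prime,
          F.Marked y ∧ IsOrdinaryW p (F.curve y) ∧ ¬ F.NonDeg y p}) fun p hp => ?_)
    · rintro y ⟨h1, p, hp, hp5, hpj, hpM, h2, h3⟩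
      rw [Set.mem_iUnion₂]
      exact ⟨p, Finset.mem_filter.2 ⟨Finset.mem_range.2 (by omega), hp.out, hp5, hpM⟩, hp, h1, h2, h3⟩
    · rw [Finset.mem_filter] at hp
      have hF : Fact p.Prime := ⟨hp.2.1⟩
      refine Pool.Agent.Run7.h316.EQ.Rare.mono ?_
        (Pool.Agent.Run7.h316.PN.rare_of_pnull hp.2.1.pos (h p hp.2.1 hp.2.2.1 hp.2.2.2)
          (pnull F hr hK hp.2.2.1))
      rintro y ⟨_, h1⟩
      exact h1

theorem fewSmall (F : Family d r) (hr : 0 < r) (hK : F.K.det ≠ 0) {p : ℕ} [hp : Fact p.Prime]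
    (hp5 : 5 ≤ p) {C : ℝ} (hC : 0 ≤ C) {Ω : Type} (S : ℕ → Finset Ω) (x : Ω → Fin d → ℤ)
    (h : DominatedBy C p S x) : FewSmall F p C S x := by
  intro k δ hδ
  have hpk0 : 0 < p ^ k := pow_pos hp.out.pos k
  obtain ⟨N₀, h1⟩ := Pool.Agent.Run7.h316.UN.classes_bound hpk0 (h k) (SmlCls F p k) δ hδ
  refine ⟨N₀, fun N hN => ?_⟩
  have hsub : {w : Ω | w ∈ S N ∧ F.Marked (x w) ∧ IsOrdinaryW p (F.curve (x w)) ∧
      (¬ F.NonDeg (x w) p ∨ ¬ Large F p (p ^ k) (x w))} ⊆
      {w : Ω | w ∈ S N ∧ (fun i => ((x w i : ℤ) : ZMod (p ^ k))) ∈ SmlCls F p k} := by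
    rintro w ⟨h2, h3, h4, h5 | h5⟩
    · exact ⟨h2, x w, sml_of_not_nonDeg hr h3 h4 h5 _, rfl⟩
    · exact ⟨h2, x w, sml_of_not hr h3 h4 h5, rfl⟩
  have h2 : (({w : Ω | w ∈ S N ∧ F.Marked (x w) ∧ IsOrdinaryW p (F.curve (x w)) ∧
      (¬ F.NonDeg (x w) p ∨ ¬ Large F p (p ^ k) (x w))}.ncard : ℕ) : ℝ) ≤
      (({w : Ω | w ∈ S N ∧ (fun i => ((x w i : ℤ) : ZMod (p ^ k))) ∈ SmlCls F p k}.ncard : ℕ) : ℝ) := by
    exact_mod_cast Set.ncard_le_ncard hsub ((S N).finite_toSet.subset fun w hw => hw.1)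
  refine h2.trans ((h1 N hN).trans (mul_le_mul_of_nonneg_right ?_ (Nat.cast_nonneg _)))
  refine add_le_add ?_ le_rfl
  have h3 := cls_real F hr hK hp5 k
  have h4 : (0 : ℝ) < ((p ^ k : ℕ) : ℝ) ^ d := by
    have : (0 : ℝ) < ((p ^ k : ℕ) : ℝ) := by exact_mod_cast hpk0
    positivity
  rw [Fintype.card_fin]
  have h5 : ((SmlCls F p k).ncard : ℝ) * (C * (((p ^ k : ℕ) : ℝ) ^ d)⁻¹) ≤
      (cst F p * (((p : ℝ) ^ k) ^ ((1 : ℝ) / r))⁻¹ * ((p ^ k : ℕ) : ℝ) ^ d) *
        (C * (((p ^ k : ℕ) : ℝ) ^ d)⁻¹) :=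
    mul_le_mul_of_nonneg_right h3 (by positivity)
  refine h5.trans (le_of_eq ?_)
  unfold cst
  have h6 : ((p ^ k : ℕ) : ℝ) ^ d * (((p ^ k : ℕ) : ℝ) ^ d)⁻¹ = 1 := mul_inv_cancel₀ h4.ne'
  obtain ⟨E, hE⟩ : ∃ E : ℝ, E = ((p : ℝ) ^ k) ^ ((1 : ℝ) / r) := ⟨_, rfl⟩
  obtain ⟨X, hX⟩ : ∃ X : ℝ, X = ((p ^ k : ℕ) : ℝ) ^ d := ⟨_, rfl⟩
  rw [← hX] at h6 ⊢
  rw [← hE, div_eq_mul_inv]
  linear_combination (2 ^ d * r * |(F.K.det : ℝ)| * (p : ℝ) ^ 4 * E⁻¹ * C) * h6

/-- **Schneider's conjecture in families of elliptic curves with prime parameters** and in all families which are dominated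
at the primes `p ≥ 5` not dividing `M`, at all primes of ordinary reduction up to a function tending to infinity. -/
theorem result (d r : ℕ) (F : Family d r) (hr : 0 < r) (hK : F.K.det ≠ 0) :
    (∀ u t : Fin d → ℤ, (∀ i, u i ≠ 0) →
      AlmostAll F 1 (primeBox (Fin d)) (fun q i => u i * q i + t i)) ∧
    (∀ (p : ℕ) [Fact p.Prime], 5 ≤ p → FewSmall F p (40 ^ d) (primeBox (Fin d)) id) ∧
    (∀ (M : ℕ) (Ω : Type) (S : ℕ → Finset Ω) (x : Ω → Fin d → ℤ),
      (∀ p : ℕ, p.Prime → 5 ≤ p → ¬ p ∣ M → DominatedAt p S x) → AlmostAll F M S x) ∧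
    (∀ (p : ℕ) [Fact p.Prime], 5 ≤ p → ∀ (C : ℝ), 0 ≤ C →
      ∀ (Ω : Type) (S : ℕ → Finset Ω) (x : Ω → Fin d → ℤ), DominatedBy C p S x →
        FewSmall F p C S x) := by
  refine ⟨fun u t hu => almostAll F hr hK 1 _ _ fun p hp _ _ =>
      Pool.Agent.Run7.h316.PN.dominatedAt_affine hp.pos
        (Pool.Agent.Run7.h316.PN.dominatedAt_primes hp) u t hu,
    fun p hp hp5 => fewSmall F hr hK hp5 (by positivity) _ _ ?_,
    fun M _ S x h => almostAll F hr hK M S x h,
    fun p hp hp5 C hC _ S x h => fewSmall F hr hK hp5 hC S x h⟩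
  have h1 := Pool.Agent.Run7.h316.PN.dominatedBy_primes (ι := Fin d) hp.out
  rw [Fintype.card_fin] at h1
  exact h1

end Pool.Agent.Results.MP_3550b5_nt.PrimeParameters
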