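import Pool.Agent.Run7.h972.AW.Freq
import Pool.Agent.Results.MP_3550b5_nt.ResidueClassesAndOrbits

/-!
# Schneider's conjecture for the members of families at random orbits of affine maps

A `Family d r` (see `Pool.Agent.Y732.Defs3`) is a Weierstrass equation over `ℤ[t₁, …, t_d]` with `r`
sections, all homogeneous for some weights of the parameters, and `F.K` is the height pairing of the
sections over the function field; it is assumed to be nondegenerate. `F.Marked v`: the member at `v ∈ ℤ^d`
is an elliptic curve and the `r` points are in lowest terms and nonsingular modulo all primes.
`F.NonDeg v p`: the `p`-adic regulator of the `r` points does not vanish, and Schneider's conjecture at `p`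
holds if the rank is `r`; `Large F p T v`: these regulators have norm greater than `1 / T`. `Rare c F p κ`:
along the sequence `c` the members which are marked and ordinary at `p` and violate `NonDeg` have density
zero, and those which are marked and ordinary and whose regulator has norm at most `p ^ (-k)` have upper
density at most `κ 2^d r |det K| p⁴ / p^(k/r)`, for all `k`.

The starting result `ResidueClassesAndOrbits` shows `Rare c F p 2` for the random orbits `c` of a vector `v`
under matrices in `SL_d(ℤ)`, `d ≥ 2`, which generate `SL_d(ℤ/q)` for all `q` prime to some `q₀`, for the
`p` which divide neither `q₀` nor some coordinate of `v`. Here the maps are affine and need not be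
invertible, and there is no condition on the starting vector.

Let `x ↦ A_j x + b_j`, `j ≤ m`, be a finite family of affine maps of `ℤ^d` (`AffineWalk`) which for all `q`
prime to some `M` are permutations of `(ℤ/q)^d` and generate a transitive group. The determinants of the
`A_j` are arbitrary nonzero integers. For instance, for `d = 1`: any finite family of maps `x ↦ a_j x + b_j`
of `ℤ`, `a_j ≠ 0`, two of which do not commute (`Run7.h972.AW.line_walk`), such as `x ↦ 10 x + d` for the `d`
in a set of at least two digits (the orbit of `0` are the initial segments of a random decimal number
with digits in this set) or `x ↦ 2 x + 1`, `x ↦ 3 x`; in general, `x ↦ A x + d` (digits in a matrix base,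
random walks on `ℤ^d` for `A = 1`). For independent and uniformly distributed indices `w 0, w 1, …` let
`c_0 = v`, `c_(t+1) = A_(w t) c_t + b_(w t)`.

**Theorem.** For almost every word `w`: for ALL starting vectors `v`, ALL families `F` with `d` parameters and
ALL primes `p ≥ 5` which do not divide `M` we have `Rare c F p 1`.

The proof: almost surely the orbits of all `v` are equidistributed modulo all `q` prime to `M` (ergodic
theorem for random walks on finite groups, starting library `Pool.Agent.N24.RW`, applied to the group of
affine permutations, `Run7.h972.AW`), and the starting library bounds the number of the residue classes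
modulo `p ^ k` which contain exceptional members (`Pool.Agent.N763.SC`).
-/

set_option autoImplicit false

namespace Pool.Agent.Results.MP_3550b5_nt.RandomAffineOrbits

open Pool.Agent.Y732 Pool.Agent.R89.SR Pool.Agent.N763.SC MeasureTheory Filter
open Pool.Agent.N24.RW (words)
open Run7.h972.AW

theorem result (d : ℕ) (W : AffineWalk (Fin d)) :
    ∀ᵐ w ∂(words W.m), ∀ (v : Fin d → ℤ) (r : ℕ) (F : Family d r), 0 < r → F.K.det ≠ 0 →
      ∀ (p : ℕ) [Fact p.Prime], 5 ≤ p → ¬ p ∣ W.M → Rare (aorb W v w) F p 1 := by
  filter_upwards [freq_all W] with w hw v r F hr hK p hp hp5 hM
  refine rare_of_freq zero_le_one (fun k S δ hδ => ?_) F hr hK hp5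
  have hc : (p ^ k).Coprime W.M :=
    Nat.Coprime.pow_left k ((Nat.Prime.coprime_iff_not_dvd hp.out).2 hM)
  have h1 := hw v (p ^ k) (pow_pos hp.out.pos k) hc S
  rw [Fintype.card_fin] at h1
  have h2 := (tendsto_order.1 h1).2 (1 * ((S.ncard : ℝ) / ((p ^ k : ℕ) : ℝ) ^ d) + δ) (by linarith)
  filter_upwards [h2] with N hN
  exact hN.le

end Pool.Agent.Results.MP_3550b5_nt.RandomAffineOrbits
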