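import Pool.Agent.Run7.h823.WF.SR
import Pool.Agent.Run7.h823.WF.Ex

/-!
# Schneider's conjecture in families of elliptic curves, for parameters in sparse families of vectors of residues:
# the first `m ^ ε` terms of linear recurrences modulo `m`

A `Family d r` (see `Pool.Agent.Y732.Defs3`) is a Weierstrass equation over `ℤ[t₁, …, t_d]` with `r` sections, all
homogeneous for some weights of the parameters; `F.K` is the height pairing of the sections over the function field.
`F.Marked v`: the member at `v` is an elliptic curve and the `r` points are in lowest terms and nonsingular modulo all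
primes. `F.NonDeg v p`: the `p`-adic regulator of the `r` points does not vanish, and Schneider's conjecture at `p` holds
if the rank is `r`. `Large F p T v`: these regulators have norm greater than `1 / T`.

The parameters are here integral vectors `c₀ + y_i`, where `y_i`, `i ∈ s`, is an arbitrary family of vectors of residues
modulo an integer `q` (represented by the least residues) whose Fourier coefficients at the nonzero frequencies are at most
`q ^ (-β)` times their number. The family can be very sparse: examples are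

* the values `(u_1(n), …, u_d(n))`, `n < N`, of `d` linear recurrences modulo a prime `m` with linearly independent vectors
  of coefficients, as soon as `N ≥ m ^ ε` and the roots and their quotients have orders `≥ m ^ ε`;
* the vectors `(x_1 b_1 ^ n, …, x_d b_d ^ n)`, `n < N`, `N ≥ m ^ ε`, for fixed different integers `b_j ≥ 2` and
  all `x_j ≠ 0`, modulo all but `C X ^ ε` of the primes `m ≤ X`; for instance the parameters
  `t_1 = 2 ^ n mod m`, `t_2 = 3 ^ n mod m`.

In these examples only `m ^ ε` of the `m ^ d` vectors of the box occur.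

From Mathlib: `ZMod.stdAddChar`: the additive character `j ↦ exp (2 π i j / q)` of the integers modulo `q`; `ZMod.val`: the
least residue.

Proof: the residue classes of the exceptional parameters are counted in `Pool.Agent.N763.SC.Cls` (on the basis of the
starting library); families with small Fourier coefficients are uniformly distributed modulo all integers up to a power of
`q`; the Fourier coefficients of short recurrences are estimated by the method of Bourgain, Glibichuk and Konyagin
(`Pool.Agent.Run7.h823.BK`).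
-/

set_option autoImplicit false

namespace Pool.Agent.Results.MP_3550b5_nt.ResidueVectors

open Pool.Agent.Y732 Pool.Agent.R89.SR Finset

/-- The Fourier coefficients of the vectors of residues `y i`, `i ∈ s`, modulo `q` at the nonzero frequencies are at most
`η` times the number of the vectors: `|∑ i ∈ s, e(h·y_i / q)| ≤ η |s|` for all vectors `h ≠ 0` modulo `q`. -/
def Flat {τ ι : Type} [Fintype ι] (q : ℕ) [NeZero q] (η : ℝ) (s : Finset τ) (y : τ → ι → ZMod q) : Prop :=
  ∀ h : ι → ZMod q, h ≠ 0 → ‖∑ i ∈ s, (ZMod.stdAddChar (∑ j, h j * y i j) : ℂ)‖ ≤ η * s.card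

/-- The integral vector `c₀ + y_i`, with the least residues `0 ≤ y_i < q`. -/
def vec {τ ι : Type} {q : ℕ} (y : τ → ι → ZMod q) (c₀ : ι → ℤ) (i : τ) (j : ι) : ℤ := c₀ j + ((y i j).val : ℕ)

/-- The member at `v` is not marked, or for all primes `p` with `5 ≤ p ≤ X` at which it is ordinary: the `p`-adic
regulators of the `r` points and, if the rank is `r`, of the curve do not vanish, and they have norm greater than
`p ^ (-k)` for some `k` with `p ^ k ≤ T`, in particular greater than `1 / T`. -/
def Schneider {d r : ℕ} (F : Family d r) (X T : ℝ) (v : Fin d → ℤ) : Prop :=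
  F.Marked v → ∀ (p : ℕ) (_ : Fact p.Prime), 5 ≤ p → (p : ℝ) ≤ X → IsOrdinaryW p (F.curve v) →
    F.NonDeg v p ∧ ∃ k : ℕ, ((p ^ k : ℕ) : ℝ) ≤ T ∧ Large F p (p ^ k) v

/-- **Theorem.** (1) Let `F` be a family with `d` parameters and `r ≥ 1` sections whose height pairing over the function
field is nondegenerate, and `β, ε > 0`. There is `η > 0` such that for all large `q`, all families `y_i`, `i ∈ s`, of vectors
of residues modulo `q` with Fourier coefficients at most `q ^ (-β) |s|` and all integral vectors `c₀`, all but at most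
`|s| q ^ (-η)` of the vectors `v = c₀ + y_i` have the following property: if the member at `v` is marked, then for ALL
primes `5 ≤ p ≤ q ^ η` at which it is ordinary the `p`-adic regulator does not vanish, and its norm is greater than
`q ^ (-ε)`.

(2) Examples: short linear recurrences. (3) Examples: the first powers of fixed integers, modulo all but `C X ^ ε` of the
primes `m ≤ X`. -/
theorem result :
    (∀ (d r : ℕ) (F : Family d r), 0 < r → F.K.det ≠ 0 → ∀ β ε : ℝ, 0 < β → 0 < ε → ∃ η : ℝ, 0 < η ∧ ∃ q₀ : ℕ,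
      ∀ (q : ℕ) [NeZero q], q₀ ≤ q → ∀ (τ : Type) (s : Finset τ) (y : τ → Fin d → ZMod q),
      Flat q ((q : ℝ) ^ (-β)) s y → ∀ c₀ : Fin d → ℤ,
      ({i : τ | i ∈ s ∧ ¬ Schneider F ((q : ℝ) ^ η) ((q : ℝ) ^ ε) (vec y c₀ i)}.ncard : ℝ) ≤
        s.card * (q : ℝ) ^ (-η)) ∧
    (∀ (k : ℕ) (ε : ℝ), 0 < ε → ∃ β : ℝ, 0 < β ∧ ∃ m₀ : ℕ, ∀ (m : ℕ) [Fact m.Prime], m₀ ≤ m →
      ∀ (d : ℕ) (c : Fin d → Fin k → ZMod m) (g : Fin k → (ZMod m)ˣ) (N : ℕ), LinearIndependent (ZMod m) c →
      (∀ i, (m : ℝ) ^ ε ≤ orderOf (g i)) → (∀ i j, i ≠ j → (m : ℝ) ^ ε ≤ orderOf (g i / g j)) → (m : ℝ) ^ ε ≤ N →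
      Flat m ((m : ℝ) ^ (-β)) (range N) (fun n j => ∑ i, c j i * (g i : ZMod m) ^ n)) ∧
    (∀ (d : ℕ) (ε : ℝ), 0 < ε → ∃ β : ℝ, 0 < β ∧ ∀ b : Fin d → ℕ, (∀ j, 2 ≤ b j) → Function.Injective b →
      ∃ C : ℝ, ∀ X : ℕ, 1 ≤ X → ∀ Q : Finset ℕ,
      (∀ m ∈ Q, m ≤ X ∧ ∃ _ : Fact m.Prime, ¬ ∀ N : ℕ, (m : ℝ) ^ ε ≤ N → ∀ x : Fin d → ZMod m, (∀ j, x j ≠ 0) →
        Flat m ((m : ℝ) ^ (-β)) (range N) (fun n j => x j * (b j : ZMod m) ^ n)) →
      (Q.card : ℝ) ≤ C * (X : ℝ) ^ ε) := by
  refine ⟨fun d r F hr hK β ε hβ hε => ?_, fun k ε hε => Pool.Agent.Run7.h823.WF.flat_rec k hε,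
    fun d ε hε => Pool.Agent.Run7.h823.WF.flat_pow d hε⟩
  obtain ⟨η, hη, q₀, h⟩ := Pool.Agent.Run7.h823.WF.SR.residues F hr hK hβ hε
  exact ⟨η, hη, q₀, fun q _ hq τ s y hf c₀ => h τ q hq s y c₀ hf⟩

end Pool.Agent.Results.MP_3550b5_nt.ResidueVectors
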